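import Pool.Agent.Helper70.OB.Goals

open MeasureTheory Set Metric Filter
open scoped ENNReal Topology
open Pool.Agent.Helper70.OB

namespace Pool.Agent.Helper93.OB

/-- the integral of the pure power -/
lemma int_pow (k : ℕ) (hk : 2 ≤ k) (f : ℝ → ℝ) (r : ℝ) (hr : 0 < r)
    (hf : ∀ u, 0 < u → u ≤ r → f u = 0) :
    ∫ u in (0 : ℝ)..r, u ^ (2 * k - 2) * (f u + 1) = r ^ (2 * k - 1) / (2 * k - 1) := by
  have h1 : ∫ u in (0 : ℝ)..r, u ^ (2 * k - 2) * (f u + 1) =
      ∫ u in (0 : ℝ)..r, u ^ (2 * k - 2) := by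
    refine intervalIntegral.integral_congr_ae ?_
    filter_upwards with u hu
    rw [uIoc_of_le hr.le] at hu
    rw [hf u hu.1 hu.2]
    ring
  rw [h1, integral_pow]
  have h2 : 2 * k - 2 + 1 = 2 * k - 1 := by omega
  have h3 : ((2 * k - 2 : ℕ) : ℝ) + 1 = 2 * (k : ℝ) - 1 := by
    rw [Nat.cast_sub (by omega)]
    push_cast
    ring
  rw [h2, h3, zero_pow (by omega), sub_zero]

/-- a left continuous function with vanishing integrals is zero -/
lemma left_zero (k : ℕ) (P : ℝ → ℝ) (b r : ℝ) (hr : 0 < r) (_hrb : r ≤ b)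
    (hc : ContinuousWithinAt P (Iic r) r)
    (hi : ∀ r₁, 0 < r₁ → r₁ ≤ r → IntervalIntegrable (fun t => P t / t ^ (2 * k - 2)) volume r₁ r)
    (h0 : ∀ r₁, 0 < r₁ → r₁ ≤ r → ∫ t in r₁..r, P t / t ^ (2 * k - 2) = 0) : ¬ 0 < P r := by
  intro hp
  have h1 : ∀ᶠ t in 𝓝[≤] r, 0 < P t := hc.eventually (lt_mem_nhds hp)
  rw [Filter.Eventually, mem_nhdsLE_iff_exists_Ioc_subset] at h1
  obtain ⟨l, hl, hl2⟩ := h1
  have hl3 : l < r := hl
  set c := max ((l + r) / 2) (r / 2) with hcdef
  have hc1 : c < r := by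
    rw [hcdef]
    exact max_lt (by linarith) (by linarith)
  have hc2 : 0 < c := lt_of_lt_of_le (by linarith) (le_max_right _ _)
  have hc3 : l < c := lt_of_lt_of_le (by linarith) (le_max_left _ _)
  have h2 := intervalIntegral.intervalIntegral_pos_of_pos_on (hi c hc2 hc1.le)
    (fun t ht => by
      have h3 : 0 < P t := hl2 ⟨hc3.trans ht.1, ht.2.le⟩
      have h4 : 0 < t := hc2.trans ht.1
      positivity) hc1
  rw [h0 c hc2 hc1.le] at h2
  exact lt_irrefl _ h2

theorem str : BAS → ACC → ATOM → EN → CNT → STR := by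
  intro _ hACC hATOM hEN hCNT k V P m hC S R hR hScl hSsub hRS hV0 hVnn hm hint
  by_cases hfin : S.Finite
  · exact Or.inl hfin
  refine Or.inr ?_
  have hk := hC.two_le
  have hinf : S.Infinite := hfin
  -- accumulation points
  set A := derivedSet S with hA
  have hAne : A.Nonempty := by
    obtain ⟨x, _, hx⟩ := hinf.exists_accPt_of_subset_isCompact isCompact_Icc hSsub
    exact ⟨x, hx⟩
  have hAcl : IsClosed A := isClosed_derivedSet S
  have hAS : A ⊆ S := by
    intro x hx
    have := derivedSet_subset_closure S hx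
    rwa [hScl.closure_eq] at this
  have hAb : BddAbove A := ⟨R, fun x hx => (hSsub (hAS hx)).2⟩
  set b := sSup A with hb
  have hbA : b ∈ A := hAcl.csSup_mem hAne hAb
  have hbS : b ∈ S := hAS hbA
  have hb0 : 0 ≤ b := (hSsub hbS).1
  have hbR : b ≤ R := (hSsub hbS).2
  have hacc : ∀ δ > 0, ∃ r ∈ S, r ≠ b ∧ b - δ < r ∧ r < b + δ := by
    intro δ hδ
    have h1 : AccPt b (𝓟 S) := hbA
    rw [accPt_iff_nhds] at h1
    obtain ⟨y, hy, hne⟩ := h1 (Ioo (b - δ) (b + δ)) (Ioo_mem_nhds (by linarith) (by linarith))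
    exact ⟨y, hy.2, hne, hy.1.1, hy.1.2⟩
  have hfint : ∀ t, b < t → (S ∩ Icc t R).Finite := by
    intro t ht
    by_contra hn
    have hn' : (S ∩ Icc t R).Infinite := hn
    obtain ⟨x, hx, hx2⟩ := hn'.exists_accPt_of_subset_isCompact isCompact_Icc
      (inter_subset_right : S ∩ Icc t R ⊆ Icc t R)
    have h1 : x ∈ A := hx2.mono (principal_mono.2 inter_subset_left)
    have h2 := le_csSup hAb h1
    have h3 := hx.1
    linarith
  -- the two cases
  rcases hb0.eq_or_lt with hb00 | hbpos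
  · -- b = 0
    refine ⟨0, le_rfl, hR, ?_, ?_, ?_, ?_⟩
    · intro x hx
      have : x = b := by
        rw [← hb00]
        exact le_antisymm hx.2 hx.1
      rw [this]
      exact hbS
    · intro t ht
      exact hfint t (by rw [← hb00]; exact ht)
    · intro r h1 h2
      linarith
    · intro _
      refine ⟨?_, ?_⟩
      · intro t ht
        obtain ⟨r, hrS, hrne, hr1, hr2⟩ := hacc t ht
        have h1 := (hSsub hrS).1
        rw [← hb00] at hrne hr2
        refine ⟨r, hrS, lt_of_le_of_ne h1 (Ne.symm hrne), by linarith⟩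
      · rw [zero_pow (by omega), zero_div]
        exact hC.zero
  -- b > 0
  have hzero : (∀ δ > 0, ∃ r, b < r ∧ r < b + δ ∧ V 0 r = 0) ∨
      (∀ δ > 0, ∃ r, b - δ < r ∧ r < b ∧ V 0 r = 0) := by
    by_contra hcon
    push Not at hcon
    obtain ⟨⟨d1, hd1, h1⟩, ⟨d2, hd2, h2⟩⟩ := hcon
    obtain ⟨r, hrS, hrne, hr1, hr2⟩ := hacc (min (min d1 d2) b) (lt_min (lt_min hd1 hd2) hbpos)
    have e1 : min (min d1 d2) b ≤ d1 := (min_le_left _ _).trans (min_le_left _ _)
    have e2 : min (min d1 d2) b ≤ d2 := (min_le_left _ _).trans (min_le_right _ _)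
    have e3 : min (min d1 d2) b ≤ b := min_le_right _ _
    have hr0 : 0 < r := by linarith
    rcases lt_or_gt_of_ne hrne with hlt | hgt
    · exact h2 r (by linarith) hlt (hV0 r hrS hr0)
    · exact h1 r hgt (by linarith) (hV0 r hrS hr0)
  have hVb : ∀ j < k, V j b = 0 ∧ (j + 1 < k → P j b = 0) := by
    intro j hj
    rcases hzero with h | h
    · exact ((hACC k V P m hC b hbpos).1 h j hj).2
    · exact ((hACC k V P m hC b hbpos).2 h j hj).2
  have hV0z : ∀ r, 0 < r → r < b → V 0 r = 0 := by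
    refine hEN k V P m hC b hbpos ?_ ?_ ?_
    · intro j hj
      exact ⟨(hVb j (by omega)).1, (hVb j (by omega)).2 hj⟩
    · intro r h1 h2
      exact hVnn r h1 (by linarith)
    · exact hint b hbpos (hVb 0 (by omega)).1
  have hVjz : ∀ j < k, ∀ r, 0 < r → r ≤ b → V j r = 0 := by
    intro j hj r hr hrb
    rcases hrb.eq_or_lt with he | hlt
    · rw [he]
      exact (hVb j hj).1
    · refine (((hACC k V P m hC r hr).1 ?_) j hj).2.1
      intro δ hδ
      refine ⟨min (r + δ / 2) ((r + b) / 2), lt_min (by linarith) (by linarith),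
        lt_of_le_of_lt (min_le_left _ _) (by linarith), ?_⟩
      refine hV0z _ (lt_min (by linarith) (by linarith))
        (lt_of_le_of_lt (min_le_right _ _) (by linarith))
  have htop : ∀ r, 0 < r → r ≤ b → P (k - 1) r = r ^ (2 * k - 1) / (2 * k - 1) - m r := by
    intro r hr hrb
    rw [hC.top r hr, int_pow k hk (V (k - 1)) r hr
      (fun u hu hur => hVjz (k - 1) (by omega) u hu (hur.trans hrb))]
  have hcont : ∀ r, 0 < r → r ≤ b → ContinuousWithinAt (P (k - 1)) (Iic r) r := by
    intro r hr hrb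
    have h1 : ContinuousWithinAt (fun r : ℝ => r ^ (2 * k - 1) / (2 * k - 1) - m r) (Iic r) r := by
      refine ContinuousWithinAt.sub ?_ (hC.left r hr)
      exact (by fun_prop : Continuous (fun r : ℝ => r ^ (2 * k - 1) / (2 * (k : ℝ) - 1))).continuousWithinAt
    refine h1.congr_of_eventuallyEq ?_ (htop r hr hrb)
    have h2 : Ioi (0 : ℝ) ∈ 𝓝[≤] r := mem_nhdsWithin_of_mem_nhds (Ioi_mem_nhds hr)
    filter_upwards [h2, self_mem_nhdsWithin] with t ht ht2
    exact htop t ht (le_trans ht2 hrb)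
  have hint0 : ∀ r, 0 < r → r ≤ b → ∀ r₁, 0 < r₁ → r₁ ≤ r →
      ∫ t in r₁..r, P (k - 1) t / t ^ (2 * k - 2) = 0 := by
    intro r hr hrb r₁ h1 h2
    rw [← hC.der (k - 1) (by omega) r₁ r h1 h2, hVjz (k - 1) (by omega) r hr hrb,
      hVjz (k - 1) (by omega) r₁ h1 (h2.trans hrb), sub_zero]
  have hPz : ∀ r, 0 < r → r ≤ b → P (k - 1) r = 0 := by
    intro r hr hrb
    have h1 : ¬ 0 < P (k - 1) r := left_zero k (P (k - 1)) b r hr hrb (hcont r hr hrb)
      (fun r₁ h1 h2 => hC.pint (k - 1) (by omega) r₁ r h1 h2) (hint0 r hr hrb)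
    have h2 : ¬ 0 < (fun t => - P (k - 1) t) r := by
      refine left_zero k (fun t => - P (k - 1) t) b r hr hrb (hcont r hr hrb).neg ?_ ?_
      · intro r₁ h1 h2
        have h3 := (hC.pint (k - 1) (by omega) r₁ r h1 h2).neg
        have h4 : (fun t => -P (k - 1) t / t ^ (2 * k - 2)) =
            -(fun t => P (k - 1) t / t ^ (2 * k - 2)) := by
          funext t
          change -P (k - 1) t / t ^ (2 * k - 2) = -(P (k - 1) t / t ^ (2 * k - 2))
          ring
        rw [h4]
        exact h3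
      · intro r₁ h1 h2
        have h3 : ∫ t in r₁..r, -P (k - 1) t / t ^ (2 * k - 2) =
            - ∫ t in r₁..r, P (k - 1) t / t ^ (2 * k - 2) := by
          rw [← intervalIntegral.integral_neg]
          refine intervalIntegral.integral_congr fun t _ => ?_
          exact neg_div _ _
        rw [h3, hint0 r hr hrb r₁ h1 h2, neg_zero]
    simp only [Left.neg_pos_iff, not_lt] at h2
    exact le_antisymm (not_lt.1 h1) h2
  have hmr : ∀ r, 0 < r → r ≤ b → m r = r ^ (2 * k - 1) / (2 * k - 1) := by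
    intro r hr hrb
    have h1 := htop r hr hrb
    rw [hPz r hr hrb] at h1
    linarith
  have hk1 : (0 : ℝ) < 2 * (k : ℝ) - 1 := by
    have : (2 : ℝ) ≤ k := by exact_mod_cast hk
    linarith
  have hmeet : ∀ x y, 0 < x → x < y → y ≤ b → (S ∩ Ico x y).Nonempty := by
    intro x y hx hxy hyb
    by_contra hn
    rw [not_nonempty_iff_eq_empty] at hn
    have h1 := hm x y hx hxy.le hn
    rw [hmr x hx (hxy.le.trans hyb), hmr y (hx.trans hxy) hyb] at h1
    have h2 : x ^ (2 * k - 1) < y ^ (2 * k - 1) := pow_lt_pow_left₀ hxy hx.le (by omega)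
    rw [div_left_inj' hk1.ne'] at h1
    linarith
  have hIcc : Icc 0 b ⊆ S := by
    intro r hr
    rcases hr.2.eq_or_lt with he | hlt
    · rw [he]
      exact hbS
    · rw [← hScl.closure_eq, Metric.mem_closure_iff]
      intro ε hε
      have e1 : 0 < min ε (b - r) := lt_min hε (by linarith)
      have e2 : min ε (b - r) ≤ ε := min_le_left _ _
      have e3 : min ε (b - r) ≤ b - r := min_le_right _ _
      have hr0 := hr.1
      obtain ⟨s, hs, hs1, hs2⟩ := hmeet (r + min ε (b - r) / 3) (r + min ε (b - r) / 2)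
        (by linarith) (by linarith) (by linarith)
      refine ⟨s, hs, ?_⟩
      rw [Real.dist_eq, abs_lt]
      constructor <;> linarith
  -- `b < R`
  have hbltR : b < R := by
    rcases hbR.eq_or_lt with he | hlt
    · exfalso
      have h1 := hCNT k V P m hC b hbpos (fun j hj => (hVb j hj).1)
        (fun j hj => (hVb j (by omega)).2 hj) ∅ (by simp) (by simp) (by
          intro x y hx hxy _
          refine hm x y (hbpos.trans hx) hxy ?_
          rw [eq_empty_iff_forall_notMem]
          rintro r ⟨hrS, hr1, _⟩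
          have := (hSsub hrS).2
          linarith)
      exact absurd h1.1 (by simp)
    · exact hlt
  refine ⟨b, hb0, hbltR, hIcc, hfint, hmr, ?_⟩
  intro hk3
  have hright : ∀ t, b < t → (S ∩ Ioo b t).Nonempty := by
    intro t ht
    by_contra hn
    rw [not_nonempty_iff_eq_empty] at hn
    have hFfin : (S ∩ Ioc b R).Finite := by
      refine (hfint t ht).subset ?_
      rintro r ⟨hrS, hr1, hr2⟩
      refine ⟨hrS, ?_, hr2⟩
      by_contra hlt
      push Not at hlt
      have : r ∈ S ∩ Ioo b t := ⟨hrS, hr1, hlt⟩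
      rw [hn] at this
      exact this
    have h1 := hCNT k V P m hC b hbpos (fun j hj => (hVb j hj).1)
      (fun j hj => (hVb j (by omega)).2 hj) hFfin.toFinset ?_ ?_ ?_
    · have := h1.2
      omega
    · intro r hr
      rw [Finite.mem_toFinset] at hr
      exact ⟨hr.2.1, hV0 r hr.1 (hbpos.trans hr.2.1)⟩
    · intro R' hR' r h1 h2
      rw [Finite.mem_toFinset] at hR'
      exact hVnn r (hbpos.trans h1) (h2.trans hR'.2.2)
    · intro x y hx hxy hF
      refine hm x y (hbpos.trans hx) hxy ?_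
      rw [eq_empty_iff_forall_notMem]
      rintro r ⟨hrS, hr1, hr2⟩
      refine hF r ?_ ⟨hr1, hr2⟩
      rw [Finite.mem_toFinset]
      exact ⟨hrS, lt_of_lt_of_le hx hr1, (hSsub hrS).2⟩
  refine ⟨hright, ?_⟩
  have h1 := hATOM k V P m hC b hbpos (by
    intro δ hδ
    obtain ⟨r, hrS, hr1, hr2⟩ := hright (b + δ) (by linarith)
    exact ⟨r, hr1, hr2, hV0 r hrS (hbpos.trans hr1)⟩)
  rwa [int_pow k hk (V (k - 1)) b hbpos (fun u hu hur => hVjz (k - 1) (by omega) u hu hur)] at h1

end Pool.Agent.Helper93.OB
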