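import Pool.Agent.Helper70.OB.GoalsE
import Pool.Agent.Helper85.OB.CNTT

open MeasureTheory Set Metric Filter
open scoped ENNReal Topology
open Pool.Agent.Helper70.OB
open Pool.Agent.Helper85.OB (cn cn_le cn_mono cn_eq cn_all)

namespace Pool.Agent.Helper93.OB

variable {k : ℕ} {K L : ℝ → ℝ} {V P : ℕ → ℝ → ℝ} {d D : ℝ → ℝ} {b : ℝ} {F : Finset ℝ}

/-- derivative of the quotient -/
lemma ezk_der1 (hE : ECh k K L V P) (hT : ETop k K L V P d D b F) {r : ℝ} (hr : b < r)
    (hrF : r ∉ F) : HasDerivAt (fun r => V k r / K r)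
      ((K r * d r - L r * V k r) / (r ^ (2 * k - 1) * K r ^ 2)) r := by
  have hr0 : 0 < r := hT.pos.trans hr
  have hK := hE.kpos r hr0
  have h1 := (hT.vk r hr hrF).div (hE.kder r hr0) hK.ne'
  refine h1.congr_deriv ?_
  have h2 : r ^ (2 * k - 1) ≠ 0 := pow_ne_zero _ hr0.ne'
  have h3 := hK.ne'
  field_simp

/-- derivative of the Wronskian -/
lemma ezk_der2 (hE : ECh k K L V P) (hT : ETop k K L V P d D b F) {r : ℝ} (hr : b < r)
    (hrF : r ∉ F) : HasDerivAt (fun r => K r * d r - L r * V k r)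
      (K r * (D r - r ^ (2 * k - 1) * V k r)) r := by
  have hr0 : 0 < r := hT.pos.trans hr
  have h1 := ((hE.kder r hr0).mul (hT.dk r hr hrF)).sub ((hE.lder r hr0).mul (hT.vk r hr hrF))
  refine h1.congr_deriv ?_
  have h2 : r ^ (2 * k - 1) ≠ 0 := pow_ne_zero _ hr0.ne'
  field_simp
  ring

lemma ezk_pos (hE : ECh k K L V P) (hT : ETop k K L V P d D b F) {r : ℝ} (hr : b < r)
    (hrF : r ∉ F) : 0 < K r * (D r - r ^ (2 * k - 1) * V k r) := by
  have hr0 : 0 < r := hT.pos.trans hr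
  have hK := hE.kpos r hr0
  have h1 := hT.dpos r hr hrF
  exact mul_pos hK (by linarith)

/-- Rolle -/
lemma ezk_zero (hE : ECh k K L V P) (hT : ETop k K L V P d D b F) {p q : ℝ} (hp : b < p)
    (hpq : p < q) (hVp : V k p = 0) (hVq : V k q = 0) (hn : ∀ r, p ≤ r → r ≤ q → r ∉ F) :
    ∃ c, p < c ∧ c < q ∧ K c * d c - L c * V k c = 0 := by
  obtain ⟨c, hc1, hc2⟩ := exists_hasDerivAt_eq_zero (f := fun r => V k r / K r)
    (f' := fun r => (K r * d r - L r * V k r) / (r ^ (2 * k - 1) * K r ^ 2)) hpq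
    (fun r hr => (ezk_der1 hE hT (lt_of_lt_of_le hp hr.1)
      (hn r hr.1 hr.2)).continuousAt.continuousWithinAt) (by simp [hVp, hVq])
    (fun r hr => ezk_der1 hE hT (hp.trans hr.1) (hn r hr.1.le hr.2.le))
  refine ⟨c, hc1.1, hc1.2, ?_⟩
  have hc0 : 0 < c := hT.pos.trans (hp.trans hc1.1)
  have hden : c ^ (2 * k - 1) * K c ^ 2 ≠ 0 :=
    mul_ne_zero (pow_ne_zero _ hc0.ne') (pow_ne_zero _ (hE.kpos c hc0).ne')
  exact (div_eq_zero_iff.mp hc2).resolve_right hden

/-- strict monotonicity of the Wronskian on closed intervals off `F` -/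
lemma ezk_mono (hE : ECh k K L V P) (hT : ETop k K L V P d D b F) {p q : ℝ} (hp : b < p)
    (hpq : p < q) (hn : ∀ r, p ≤ r → r ≤ q → r ∉ F) :
    K p * d p - L p * V k p < K q * d q - L q * V k q := by
  have hmono : StrictMonoOn (fun r => K r * d r - L r * V k r) (Icc p q) := by
    apply strictMonoOn_of_deriv_pos (convex_Icc p q)
    · intro r hr
      exact (ezk_der2 hE hT (lt_of_lt_of_le hp hr.1)
        (hn r hr.1 hr.2)).continuousAt.continuousWithinAt
    · intro r hr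
      rw [interior_Icc] at hr
      rw [(ezk_der2 hE hT (hp.trans hr.1) (hn r hr.1.le hr.2.le)).deriv]
      exact ezk_pos hE hT (hp.trans hr.1) (hn r hr.1.le hr.2.le)
  exact hmono ⟨le_rfl, hpq.le⟩ ⟨hpq.le, le_rfl⟩ hpq

/-- three zeros in one gap are impossible -/
lemma ezk_three (hE : ECh k K L V P) (hT : ETop k K L V P d D b F) {p₁ p₂ p₃ : ℝ} (hp : b < p₁)
    (h12 : p₁ < p₂) (h23 : p₂ < p₃) (e1 : V k p₁ = 0) (e2 : V k p₂ = 0) (e3 : V k p₃ = 0)
    (hn : ∀ r, p₁ ≤ r → r ≤ p₃ → r ∉ F) : False := by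
  obtain ⟨c, hc1, hc2, hc⟩ := ezk_zero hE hT hp h12 e1 e2
    (fun r h1 h2 => hn r h1 (h2.trans h23.le))
  obtain ⟨c', hc1', hc2', hc'⟩ := ezk_zero hE hT (hp.trans h12) h23 e2 e3
    (fun r h1 h2 => hn r (h12.le.trans h1) h2)
  have h := ezk_mono hE hT (hp.trans hc1) (hc2.trans hc1')
    (fun r h1 h2 => hn r (hc1.le.trans h1) (h2.trans hc2'.le))
  rw [hc, hc'] at h
  exact lt_irrefl _ h

/-- two zeros in the first gap are impossible -/
lemma ezk_first (hE : ECh k K L V P) (hT : ETop k K L V P d D b F) {p₁ p₂ : ℝ} (hp : b < p₁)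
    (h12 : p₁ < p₂) (e1 : V k p₁ = 0) (e2 : V k p₂ = 0)
    (hn : ∀ r, b < r → r ≤ p₂ → r ∉ F) : False := by
  obtain ⟨c, hc1, hc2, hc⟩ := ezk_zero hE hT hp h12 e1 e2
    (fun r h1 h2 => hn r (lt_of_lt_of_le hp h1) h2)
  -- the Wronskian is negative on `(b, c)`
  have hneg : ∀ r, b < r → r < c → K r * d r - L r * V k r < 0 := by
    intro r h1 h2
    have h := ezk_mono hE hT h1 h2 (fun s hs1 hs2 => hn s (lt_of_lt_of_le h1 hs1)
      (hs2.trans hc2.le))
    rwa [hc] at h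
  -- the quotient is strictly decreasing on `(b, c)`
  have hanti : StrictAntiOn (fun r => V k r / K r) (Ioo b c) := by
    apply strictAntiOn_of_deriv_neg (convex_Ioo b c)
    · intro r hr
      exact (ezk_der1 hE hT hr.1 (hn r hr.1 (hr.2.le.trans hc2.le))).continuousAt.continuousWithinAt
    · intro r hr
      rw [interior_Ioo] at hr
      rw [(ezk_der1 hE hT hr.1 (hn r hr.1 (hr.2.le.trans hc2.le))).deriv]
      have hr0 : 0 < r := hT.pos.trans hr.1
      have hK := hE.kpos r hr0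
      exact div_neg_of_neg_of_pos (hneg r hr.1 hr.2) (by positivity)
  set s := (b + p₁) / 2 with hs
  have hs1 : b < s := by rw [hs]; linarith
  have hs2 : s < p₁ := by rw [hs]; linarith
  have hcs : 0 < V k s / K s := by
    have h := hanti ⟨hs1, hs2.trans hc1⟩ ⟨hp, hc1⟩ hs2
    simp only [e1, zero_div] at h
    exact h
  set t := V k s / K s with ht
  have hKb := hE.kpos b hT.pos
  have hKc : ContinuousAt K b := (hE.kder b hT.pos).continuousAt
  have hev : ∀ᶠ r in 𝓝 b, K b / 2 < K r := hKc.eventually (lt_mem_nhds (by linarith))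
  obtain ⟨δ₁, hδ₁, hδ₁2⟩ := Metric.eventually_nhds_iff.1 hev
  obtain ⟨δ₂, hδ₂, hδ₂2⟩ := hT.start (t * (K b / 4)) (by positivity)
  set r := b + min (min δ₁ δ₂) (s - b) / 2 with hr
  have e0 : 0 < min (min δ₁ δ₂) (s - b) := lt_min (lt_min hδ₁ hδ₂) (by linarith)
  have e3 : min (min δ₁ δ₂) (s - b) ≤ δ₁ := (min_le_left _ _).trans (min_le_left _ _)
  have e4 : min (min δ₁ δ₂) (s - b) ≤ δ₂ := (min_le_left _ _).trans (min_le_right _ _)
  have e5 : min (min δ₁ δ₂) (s - b) ≤ s - b := min_le_right _ _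
  have hr1 : b < r := by rw [hr]; linarith
  have hr2 : r < s := by rw [hr]; linarith
  have h1 : V k r ≤ t * (K b / 4) := hδ₂2 r hr1 (by rw [hr]; linarith)
  have h2 : K b / 2 < K r := by
    refine hδ₁2 ?_
    rw [Real.dist_eq, abs_lt]
    constructor <;> rw [hr] <;> linarith
  have h3 : t < V k r / K r := by
    have h := hanti ⟨hr1, hr2.trans (hs2.trans hc1)⟩ ⟨hs1, hs2.trans hc1⟩ hr2
    exact h
  have hKr : 0 < K r := hE.kpos r (hT.pos.trans hr1)
  rw [lt_div_iff₀ hKr] at h3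
  have h4 : t * (K b / 2) ≤ t * K r := mul_le_mul_of_nonneg_left h2.le hcs.le
  have h5 : 0 < t * (K b / 4) := by positivity
  nlinarith

/-- two zeros in the last gap are impossible -/
lemma ezk_last (hE : ECh k K L V P) (hT : ETop k K L V P d D b F) {p₁ p₂ : ℝ} (hp : b < p₁)
    (h12 : p₁ < p₂) (e1 : V k p₁ = 0) (e2 : V k p₂ = 0)
    (hn : ∀ r, p₁ ≤ r → r ∉ F) : False := by
  obtain ⟨c, hc1, hc2, hc⟩ := ezk_zero hE hT hp h12 e1 e2 (fun r h1 h2 => hn r h1)
  have hmono : ∀ x y, c ≤ x → x < y →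
      K x * d x - L x * V k x < K y * d y - L y * V k y := by
    intro x y h1 h2
    exact ezk_mono hE hT (hp.trans (lt_of_lt_of_le hc1 h1)) h2
      (fun r h3 _ => hn r (hc1.le.trans (h1.trans h3)))
  have h1 := hmono c (c + 1) le_rfl (by linarith)
  rw [hc] at h1
  have h2 : K (c + 1) * d (c + 1) - L (c + 1) * V k (c + 1) ≤ 0 := by
    apply ge_of_tendsto hT.wlim
    filter_upwards [eventually_gt_atTop (c + 1)] with x hx
    exact (hmono (c + 1) x (by linarith) hx).le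
  linarith

theorem ezk : EZK := by
  intro k K L V P hE d D b F hT q x hx hx2
  by_contra hcon
  rw [not_le] at hcon
  have hN : 0 < F.card := Finset.card_pos.2 hT.ne
  -- same class
  have hsame : ∀ i j : Fin q, i < j → cn F (x j) ≤ cn F (x i) →
      ∀ r, x i ≤ r → r ≤ x j → r ∉ F := by
    intro i j hij hc r h1 h2 hrF
    rcases h2.eq_or_lt with h3 | h3
    · rw [h3] at hrF
      exact (hx2 j).2.1 hrF
    · exact cn_eq F (hx hij).le hc r hrF ⟨h1, h3⟩
  have hstep : ∀ j : ℕ, ∀ h : 2 * j + 1 < q, j + 1 ≤ cn F (x ⟨2 * j + 1, h⟩) := by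
    intro j
    induction j with
    | zero =>
      intro h
      by_contra hc
      have h0 : cn F (x ⟨2 * 0 + 1, h⟩) = 0 := by omega
      have hq0 : 0 < q := by omega
      refine ezk_first hE hT (hx2 ⟨0, hq0⟩).1 (hx (by rw [Fin.lt_def]; simp) :
        x ⟨0, hq0⟩ < x ⟨2 * 0 + 1, h⟩) (hx2 _).2.2 (hx2 _).2.2 ?_
      intro r h1 h2 hrF
      rcases h2.eq_or_lt with h3 | h3
      · rw [h3] at hrF
        exact (hx2 _).2.1 hrF
      · unfold cn at h0
        rw [Finset.card_eq_zero, Finset.filter_eq_empty_iff] at h0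
        exact h0 hrF h3
    | succ j ih =>
      intro h
      have h1 : 2 * j + 1 < q := by omega
      have h2 : 2 * j + 2 < q := by omega
      have ih' := ih h1
      by_contra hc
      rw [not_le] at hc
      have hij : (⟨2 * j + 1, h1⟩ : Fin q) < ⟨2 * (j + 1) + 1, h⟩ := by
        rw [Fin.lt_def]; simp only; omega
      exact ezk_three hE hT (hx2 ⟨2 * j + 1, h1⟩).1
        (hx (by rw [Fin.lt_def]; simp only; omega) : x ⟨2 * j + 1, h1⟩ < x ⟨2 * j + 2, h2⟩)
        (hx (by rw [Fin.lt_def]; simp only; omega) : x ⟨2 * j + 2, h2⟩ < x ⟨2 * (j + 1) + 1, h⟩)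
        (hx2 _).2.2 (hx2 _).2.2 (hx2 _).2.2 (hsame _ _ hij (by omega))
  have h1 : 2 * (F.card - 1) + 1 < q := by omega
  have h2 := hstep (F.card - 1) h1
  have h3 : q - 2 < q := by omega
  have h4 : q - 1 < q := by omega
  have h5 : cn F (x ⟨2 * (F.card - 1) + 1, h1⟩) ≤ cn F (x ⟨q - 2, h3⟩) :=
    cn_mono F (hx.monotone (by rw [Fin.le_def]; simp only; omega))
  have h6 : F.card ≤ cn F (x ⟨q - 2, h3⟩) := by omega
  have h7 := cn_all F h6
  refine ezk_last hE hT (hx2 ⟨q - 2, h3⟩).1 (hx (by rw [Fin.lt_def]; simp only; omega) :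
    x ⟨q - 2, h3⟩ < x ⟨q - 1, h4⟩) (hx2 _).2.2 (hx2 _).2.2 ?_
  intro r hr hrF
  have := h7 r hrF
  linarith

end Pool.Agent.Helper93.OB
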